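import Pool.Agent.Helper88.Ric.Stmts

/-!
MP_092777_ag, module GEN: a generic hyperplane (dimension count with the Hausdorff dimension).
-/

set_option autoImplicit false

open scoped ContDiff Manifold Topology MatrixGroups LinearAlgebra.Projectivization ENNReal
open Complex Module

noncomputable section

namespace RicP

/-- local estimate: the union of the kernels of a `C¹` family of surjective maps `L → W` with
parameters in a space of dimension `< dim W` -/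
theorem gen_loc {A L W : Type*} [NormedAddCommGroup A] [NormedSpace ℝ A] [FiniteDimensional ℝ A]
    [NormedAddCommGroup L] [NormedSpace ℝ L] [FiniteDimensional ℝ L]
    [NormedAddCommGroup W] [NormedSpace ℝ W] [FiniteDimensional ℝ W]
    (hAW : finrank ℝ A < finrank ℝ W)
    (ev : A → (L →L[ℝ] W)) (s₀ : A) (hev : ContDiffAt ℝ 1 ev s₀)
    (hs : Function.Surjective (ev s₀)) :
    ∃ U ∈ 𝓝 s₀, dimH {l : L | ∃ s ∈ U, ev s l = 0} ≤ ((finrank ℝ L - 1 : ℕ) : ℝ≥0∞) := by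
  classical
  obtain ⟨r₀, hr₀⟩ := LinearMap.exists_rightInverse_of_surjective (ev s₀).toLinearMap
    (LinearMap.range_eq_top.2 hs)
  let r : W →L[ℝ] L := LinearMap.toContinuousLinearMap r₀
  have hr : ∀ w, ev s₀ (r w) = w := by
    intro w
    have := LinearMap.congr_fun hr₀ w
    simpa [r] using this
  let Mt : A → (W →L[ℝ] W) := fun s => (ev s).comp r
  have hM0 : Mt s₀ = 1 := by
    ext w
    simp [Mt, hr]
  have hMc : ContDiffAt ℝ 1 Mt s₀ := hev.clm_comp contDiffAt_const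
  have hinv : ContDiffAt ℝ 1 (fun s => Ring.inverse (Mt s)) s₀ := by
    have h1 : ContDiffAt ℝ 1 (Ring.inverse : (W →L[ℝ] W) → (W →L[ℝ] W)) (Mt s₀) := by
      rw [hM0]
      exact contDiffAt_ringInverse ℝ (1 : (W →L[ℝ] W)ˣ)
    exact h1.comp s₀ hMc
  let K0 : Submodule ℝ L := (ev s₀).toLinearMap.ker
  let Φ : A × K0 → L := fun x => (x.2 : L) - r (Ring.inverse (Mt x.1) (ev x.1 (x.2 : L)))
  have hunit : ∀ᶠ s in 𝓝 s₀, IsUnit (Mt s) := by
    have h1 : ContinuousAt Mt s₀ := hMc.continuousAt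
    have h2 : {x : (W →L[ℝ] W) | IsUnit x} ∈ 𝓝 (Mt s₀) := by
      rw [hM0]
      exact Units.isOpen.mem_nhds isUnit_one
    exact h1 h2
  have hev' : ∀ᶠ s in 𝓝 s₀, ContDiffAt ℝ 1 ev s := hev.eventually (by simp)
  have hinv' : ∀ᶠ s in 𝓝 s₀, ContDiffAt ℝ 1 (fun s => Ring.inverse (Mt s)) s :=
    hinv.eventually (by simp)
  obtain ⟨δ, hδ, hball⟩ := Metric.eventually_nhds_iff_ball.1 (hunit.and (hev'.and hinv'))
  refine ⟨Metric.ball s₀ δ, Metric.ball_mem_nhds _ hδ, ?_⟩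
  have hΦ : ContDiffOn ℝ 1 Φ (Metric.ball s₀ δ ×ˢ Set.univ) := by
    rintro ⟨s, k⟩ ⟨hsb, -⟩
    apply ContDiffAt.contDiffWithinAt
    have h1 : ContDiffAt ℝ 1 (fun x : A × K0 => ev x.1) (s, k) :=
      ContDiffAt.comp (s, k) (hball s hsb).2.1 contDiffAt_fst
    have h2 : ContDiffAt ℝ 1 (fun x : A × K0 => Ring.inverse (Mt x.1)) (s, k) :=
      ContDiffAt.comp (s, k) (f := Prod.fst) (g := fun s => Ring.inverse (Mt s))
        (hball s hsb).2.2 contDiffAt_fst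
    have h3 : ContDiffAt ℝ 1 (fun x : A × K0 => ((x.2 : K0) : L)) (s, k) :=
      (K0.subtypeL.contDiff.contDiffAt).comp (s, k) contDiffAt_snd
    exact h3.sub (r.contDiff.contDiffAt.comp (s, k) (h2.clm_apply (h1.clm_apply h3)))
  have hsub : {l : L | ∃ s ∈ Metric.ball s₀ δ, ev s l = 0} ⊆
      Φ '' (Metric.ball s₀ δ ×ˢ Set.univ) := by
    rintro l ⟨s, hsb, hl⟩
    have hk : l - r (ev s₀ l) ∈ K0 := by
      simp [K0, hr]
    refine ⟨(s, ⟨l - r (ev s₀ l), hk⟩), ⟨hsb, trivial⟩, ?_⟩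
    have h1 : ev s (l - r (ev s₀ l)) = - Mt s (ev s₀ l) := by
      rw [map_sub, hl, zero_sub]
      rfl
    have h2 : Ring.inverse (Mt s) (Mt s (ev s₀ l)) = ev s₀ l := by
      have h3 : Ring.inverse (Mt s) * Mt s = 1 := Ring.inverse_mul_cancel _ (hball s hsb).1
      have h4 := congrArg (fun T : W →L[ℝ] W => T (ev s₀ l)) h3
      simpa using h4
    change l - r (ev s₀ l) - r (Ring.inverse (Mt s) (ev s (l - r (ev s₀ l)))) = l
    rw [h1, map_neg, h2, map_neg]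
    abel
  have hK : finrank ℝ K0 + finrank ℝ W = finrank ℝ L := by
    have h1 := LinearMap.finrank_range_add_finrank_ker (ev s₀).toLinearMap
    have h2 : finrank ℝ (LinearMap.range (ev s₀).toLinearMap) = finrank ℝ W := by
      rw [LinearMap.range_eq_top.2 hs, finrank_top]
    have h3 : finrank ℝ K0 = finrank ℝ (LinearMap.ker (ev s₀).toLinearMap) := rfl
    omega
  calc dimH {l : L | ∃ s ∈ Metric.ball s₀ δ, ev s l = 0}
      ≤ dimH (Φ '' (Metric.ball s₀ δ ×ˢ Set.univ)) := dimH_mono hsub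
    _ ≤ dimH (Metric.ball s₀ δ ×ˢ (Set.univ : Set K0)) :=
        hΦ.dimH_image_le ((convex_ball _ _).prod convex_univ) subset_rfl
    _ ≤ dimH (Set.univ : Set (A × K0)) := dimH_mono (Set.subset_univ _)
    _ = (finrank ℝ (A × K0) : ℝ≥0∞) := Real.dimH_univ_eq_finrank _
    _ ≤ ((finrank ℝ L - 1 : ℕ) : ℝ≥0∞) := by
        have h5 : finrank ℝ (A × K0) = finrank ℝ A + finrank ℝ K0 := finrank_prod
        rw [h5]
        exact_mod_cast (by omega : finrank ℝ A + finrank ℝ K0 ≤ finrank ℝ L - 1)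

theorem gen_cover {A L : Type*} [TopologicalSpace A] [SecondCountableTopology A]
    [EMetricSpace L] (S : Set A) (B : A → Set L) (d : ℝ≥0∞)
    (h : ∀ s ∈ S, ∃ U ∈ 𝓝 s, dimH {l | ∃ u ∈ U, l ∈ B u} ≤ d) :
    dimH {l | ∃ s ∈ S, l ∈ B s} ≤ d := by
  choose! U hU hd using h
  obtain ⟨t, htS, htc, hcov⟩ := TopologicalSpace.countable_cover_nhdsWithin
    (f := U) (s := S) (fun x hx => mem_nhdsWithin_of_mem_nhds (hU x hx))
  have hsub : {l | ∃ s ∈ S, l ∈ B s} ⊆ ⋃ x ∈ t, {l | ∃ u ∈ U x, l ∈ B u} := by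
    rintro l ⟨s, hs, hl⟩
    obtain ⟨x, hx, hsx⟩ := Set.mem_iUnion₂.1 (hcov hs)
    exact Set.mem_iUnion₂.2 ⟨x, hx, s, hsx, hl⟩
  refine (dimH_mono hsub).trans ?_
  rw [dimH_bUnion htc]
  exact iSup₂_le fun x hx => hd x (htS hx)

/-- the linear form with coefficients `a` -/
def gen_lin {n : ℕ} (a : Fin (n + 1) → ℂ) : (Fin (n + 1) → ℂ) →ₗ[ℂ] ℂ :=
  ∑ i, a i • LinearMap.proj i

theorem gen_lin_apply {n : ℕ} (a v : Fin (n + 1) → ℂ) : gen_lin a v = ∑ i, a i * v i := by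
  simp [gen_lin, LinearMap.sum_apply]

/-- the pairing, as a continuous real linear map in the vector -/
def gen_pair {n : ℕ} : (Fin (n + 1) → ℂ) →L[ℝ] ((Fin (n + 1) → ℂ) →L[ℝ] ℂ) :=
  LinearMap.toContinuousLinearMap
    { toFun := fun v => LinearMap.toContinuousLinearMap
        { toFun := fun a => ∑ i, a i * v i
          map_add' := by
            intro a b
            simp [add_mul, Finset.sum_add_distrib]
          map_smul' := by
            intro c a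
            simp [Finset.mul_sum, mul_assoc] }
      map_add' := by
        intro v w
        ext a
        simp [mul_add, Finset.sum_add_distrib]
      map_smul' := by
        intro c v
        ext a
        simp only [LinearMap.coe_toContinuousLinearMap', LinearMap.coe_mk, AddHom.coe_mk,
          Pi.smul_apply, Complex.real_smul, RingHom.id_apply, FunLike.coe_smul,
          Finset.mul_sum]
        exact Finset.sum_congr rfl fun i _ => by ring }

theorem gen_pair_apply {n : ℕ} (a v : Fin (n + 1) → ℂ) : gen_pair v a = gen_lin a v := by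
  rw [gen_lin_apply]
  rfl

/-- the pairing with two vectors -/
def gen_pair2 {n : ℕ} : ((Fin (n + 1) → ℂ) × (Fin (n + 1) → ℂ)) →L[ℝ]
    ((Fin (n + 1) → ℂ) →L[ℝ] ℂ × ℂ) :=
  LinearMap.toContinuousLinearMap
    { toFun := fun v => (gen_pair v.1).prod (gen_pair v.2)
      map_add' := by
        intro v w
        ext a <;> simp
      map_smul' := by
        intro c v
        ext a <;> simp }

theorem gen_pair2_apply {n : ℕ} (a v w : Fin (n + 1) → ℂ) :
    gen_pair2 (v, w) a = (gen_lin a v, gen_lin a w) := by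
  change (gen_pair v a, gen_pair w a) = _
  rw [gen_pair_apply, gen_pair_apply]

theorem gen_rep {n : ℕ} (a v : Fin (n + 1) → ℂ) (hv : v ≠ 0) :
    gen_lin a (Projectivization.mk ℂ v hv).rep = 0 ↔ gen_lin a v = 0 := by
  obtain ⟨c, hc⟩ := Projectivization.exists_smul_eq_mk_rep ℂ v hv
  rw [← hc]
  have : gen_lin a (c • v) = (c : ℂ) * gen_lin a v := by
    rw [Units.smul_def, map_smul, smul_eq_mul]
  rw [this]
  simp

/-- a functional separating two points of projective space -/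
theorem gen_sep {n : ℕ} (v w : Fin (n + 1) → ℂ) (hv : v ≠ 0) (hw : w ≠ 0)
    (h : Projectivization.mk ℂ v hv ≠ Projectivization.mk ℂ w hw) :
    ∃ f : (Fin (n + 1) → ℂ) →ₗ[ℂ] ℂ, f v ≠ 0 ∧ f w = 0 := by
  have hmem : v ∉ Submodule.span ℂ {w} := by
    intro hmem
    obtain ⟨c, hc⟩ := Submodule.mem_span_singleton.1 hmem
    apply h
    rw [Projectivization.mk_eq_mk_iff']
    exact ⟨c, hc⟩
  obtain ⟨f, hf1, hf2⟩ := Submodule.exists_dual_map_eq_bot_of_notMem hmem inferInstance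
  refine ⟨f, hf1, ?_⟩
  have : f w ∈ (Submodule.span ℂ {w}).map f :=
    Submodule.mem_map_of_mem (Submodule.mem_span_singleton_self w)
  rw [hf2] at this
  simpa using this

theorem gen_coef {n : ℕ} (f : (Fin (n + 1) → ℂ) →ₗ[ℂ] ℂ) :
    ∃ a : Fin (n + 1) → ℂ, ∀ v, gen_lin a v = f v := by
  refine ⟨fun i => f (Pi.single i 1), fun v => ?_⟩
  rw [gen_lin_apply]
  conv_rhs => rw [pi_eq_sum_univ' v]
  rw [map_sum]
  refine Finset.sum_congr rfl fun i _ => ?_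
  rw [map_smul, smul_eq_mul, mul_comm]

theorem gen_surj1 {n : ℕ} (v : Fin (n + 1) → ℂ) (hv : v ≠ 0) :
    Function.Surjective (gen_pair v) := by
  intro c
  obtain ⟨i, hi⟩ := Function.ne_iff.1 hv
  obtain ⟨a, ha⟩ := gen_coef ((c / v i) • (LinearMap.proj i : (Fin (n + 1) → ℂ) →ₗ[ℂ] ℂ))
  refine ⟨a, ?_⟩
  rw [gen_pair_apply, ha]
  simp only [LinearMap.smul_apply, LinearMap.proj_apply, smul_eq_mul]
  exact div_mul_cancel₀ _ hi

theorem gen_surj2 {n : ℕ} (v w : Fin (n + 1) → ℂ) (hv : v ≠ 0) (hw : w ≠ 0)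
    (h : Projectivization.mk ℂ v hv ≠ Projectivization.mk ℂ w hw) :
    Function.Surjective (gen_pair2 (v, w)) := by
  rintro ⟨c, d⟩
  obtain ⟨f, hf1, hf2⟩ := gen_sep v w hv hw h
  obtain ⟨g, hg1, hg2⟩ := gen_sep w v hw hv h.symm
  obtain ⟨a, ha⟩ := gen_coef ((c / f v) • f + (d / g w) • g)
  refine ⟨a, ?_⟩
  rw [gen_pair2_apply, ha, ha]
  simp only [LinearMap.add_apply, LinearMap.smul_apply, smul_eq_mul, hf2, hg2, mul_zero,
    add_zero, zero_add, div_mul_cancel₀ _ hf1, div_mul_cancel₀ _ hg1]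

theorem gen_fr {n : ℕ} : 0 < finrank ℝ (Fin (n + 1) → ℂ) := finrank_pos

/-- bad forms for a real curve of points -/
theorem gen_curve {n : ℕ} (f : E → ℙ ℂ (Fin (n + 1) → ℂ)) (W : Set E) (hf : LiftsOn f W)
    (h : ℂ → E) (hh : Differentiable ℂ h) (e : ℝ → ℂ) (he : ContDiff ℝ 1 e)
    (hW : ∀ θ, h (e θ) ∈ W) :
    dimH {a : Fin (n + 1) → ℂ | ∃ θ ∈ (Set.univ : Set ℝ), a ∈ {a | gen_lin a (f (h (e θ))).rep = 0}}
      ≤ ((finrank ℝ (Fin (n + 1) → ℂ) - 1 : ℕ) : ℝ≥0∞) := by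
  apply gen_cover
  intro θ₀ _
  obtain ⟨V, hVo, hV, F, hF, hfF⟩ := hf _ (hW θ₀)
  have hpre : h ⁻¹' V ∈ 𝓝 (e θ₀) := (hVo.preimage hh.continuous).mem_nhds hV
  have hG : ContDiffAt ℝ 1 (fun X : ℂ => F (h X)) (e θ₀) := by
    have h1 : DifferentiableOn ℂ (fun X : ℂ => F (h X)) (h ⁻¹' V) :=
      hF.comp hh.differentiableOn (fun x hx => hx)
    exact ((h1.analyticAt hpre).contDiffAt (n := 1)).restrict_scalars ℝ
  have hev : ContDiffAt ℝ 1 (fun θ : ℝ => gen_pair (F (h (e θ)))) θ₀ :=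
    gen_pair.contDiff.contDiffAt.comp θ₀ (hG.comp θ₀ he.contDiffAt)
  obtain ⟨hne, -⟩ := hfF _ hV
  obtain ⟨U, hU, hd⟩ := gen_loc (by simp) _ θ₀ hev (gen_surj1 _ hne)
  refine ⟨U ∩ e ⁻¹' (h ⁻¹' V), Filter.inter_mem hU (he.continuous.continuousAt hpre), ?_⟩
  refine (dimH_mono ?_).trans hd
  rintro a ⟨θ, ⟨hθU, hθV⟩, ha⟩
  refine ⟨θ, hθU, ?_⟩
  obtain ⟨hne', heq⟩ := hfF _ hθV
  rw [gen_pair_apply, ← gen_rep a _ hne', ← heq]
  exact ha

/-- bad forms for a holomorphic curve of pairs of points -/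
theorem gen_two {n : ℕ} (f : E → ℙ ℂ (Fin (n + 1) → ℂ)) (W : Set E) (hf : LiftsOn f W)
    (z₁ z₂ : ℂ) (S : Set ℂ)
    (hS : ∀ τ ∈ S, (τ, z₁) ∈ W ∧ (τ, z₂) ∈ W ∧ f (τ, z₁) ≠ f (τ, z₂)) :
    dimH {a : Fin (n + 1) → ℂ | ∃ τ ∈ S, a ∈ {a | gen_lin a (f (τ, z₁)).rep = 0 ∧
      gen_lin a (f (τ, z₂)).rep = 0}}
      ≤ ((finrank ℝ (Fin (n + 1) → ℂ) - 1 : ℕ) : ℝ≥0∞) := by
  apply gen_cover
  intro τ₀ hτ₀
  obtain ⟨h1, h2, h3⟩ := hS τ₀ hτ₀
  obtain ⟨V, hVo, hV, F, hF, hfF⟩ := hf _ h1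
  obtain ⟨V', hVo', hV', F', hF', hfF'⟩ := hf _ h2
  have key : ∀ (z : ℂ) (V : Set E) (F : E → (Fin (n + 1) → ℂ)), IsOpen V → (τ₀, z) ∈ V →
      DifferentiableOn ℂ F V → (fun τ : ℂ => ((τ, z) : E)) ⁻¹' V ∈ 𝓝 τ₀ ∧
      ContDiffAt ℝ 1 (fun τ : ℂ => F (τ, z)) τ₀ := by
    intro z V F hVo hV hF
    have hh : Differentiable ℂ (fun τ : ℂ => ((τ, z) : E)) :=
      differentiable_id.prodMk (differentiable_const z)
    have hpre : (fun τ : ℂ => ((τ, z) : E)) ⁻¹' V ∈ 𝓝 τ₀ :=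
      (hVo.preimage hh.continuous).mem_nhds hV
    refine ⟨hpre, ?_⟩
    have h1 : DifferentiableOn ℂ (fun τ : ℂ => F (τ, z)) ((fun τ : ℂ => ((τ, z) : E)) ⁻¹' V) :=
      hF.comp hh.differentiableOn (fun x hx => hx)
    exact ((h1.analyticAt hpre).contDiffAt (n := 1)).restrict_scalars ℝ
  obtain ⟨p1, c1⟩ := key z₁ V F hVo hV hF
  obtain ⟨p2, c2⟩ := key z₂ V' F' hVo' hV' hF'
  have hev : ContDiffAt ℝ 1 (fun τ : ℂ => gen_pair2 (F (τ, z₁), F' (τ, z₂))) τ₀ :=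
    gen_pair2.contDiff.contDiffAt.comp τ₀ (c1.prodMk c2)
  obtain ⟨hne, heq⟩ := hfF _ hV
  obtain ⟨hne', heq'⟩ := hfF' _ hV'
  have hsurj : Function.Surjective (gen_pair2 (F (τ₀, z₁), F' (τ₀, z₂))) := by
    apply gen_surj2 _ _ hne hne'
    rw [← heq, ← heq']
    exact h3
  obtain ⟨U, hU, hd⟩ := gen_loc (by simp) _ τ₀ hev hsurj
  refine ⟨U ∩ ((fun τ : ℂ => ((τ, z₁) : E)) ⁻¹' V ∩ (fun τ : ℂ => ((τ, z₂) : E)) ⁻¹' V'),
    Filter.inter_mem hU (Filter.inter_mem p1 p2), ?_⟩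
  refine (dimH_mono ?_).trans hd
  rintro a ⟨τ, ⟨hτU, hτV, hτV'⟩, ha1, ha2⟩
  refine ⟨τ, hτU, ?_⟩
  obtain ⟨hn1, he1⟩ := hfF _ hτV
  obtain ⟨hn2, he2⟩ := hfF' _ hτV'
  rw [he1, gen_rep] at ha1
  rw [he2, gen_rep] at ha2
  rw [gen_pair2_apply, ha1, ha2]
  rfl

theorem gen_notGR (hfree : ST_FREE) (M : ModData) (N : ℕ) (hN : NOK N) (t : ℝ) (q : QN M N)
    (τ : ℂ) (hτ : 0 < τ.im) : ¬ GR M t q q (τ, 0) (τ, 1 / 2) := by
  rintro ⟨γ, m, n, hq, hm, heq⟩
  have hγ : RicP.hN M N γ = 1 := by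
    have h1 : (q : SL(2, ZMod N) × ℂˣ) * 1 = (q : SL(2, ZMod N) × ℂˣ) * RicP.hN M N γ := by
      rw [mul_one]
      exact hq
    exact (mul_left_cancel h1).symm
  have h4 : 4 ≤ N := by
    have := hN.2
    omega
  have h1 : γ = 1 := hfree M N h4 γ τ hτ hγ hm.symm
  subst h1
  simp only [jj, Matrix.SpecialLinearGroup.coe_one, Matrix.one_apply_eq, ne_eq, one_ne_zero,
    not_false_eq_true, Matrix.one_apply_ne, Int.cast_zero, zero_mul, Int.cast_one, zero_add,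
    mul_one, zero_sub] at heq
  have h2 : (1 / 2 : ℂ) = (m : ℂ) * τ + n := by
    have := heq
    linear_combination heq
  have him := congrArg Complex.im h2
  have hre := congrArg Complex.re h2
  simp at him hre
  have hm0 : m = 0 := by
    rcases him with h | h
    · exact_mod_cast h
    · exact absurd h hτ.ne'
  subst hm0
  simp at hre
  have : (2 * n : ℤ) = 1 := by
    have h3 : (2 * n : ℝ) = 1 := by linarith
    exact_mod_cast h3
  omega

theorem gen_UD1 (θ : ℝ) : ((exp (θ * I), 0) : E) ∈ UD := by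
  refine ⟨?_, ?_, ?_⟩
  · simp only [Complex.norm_exp_ofReal_mul_I]
    norm_num
  · simp
  · simp

theorem gen_UD2 (θ : ℝ) : ((0, exp (θ * I)) : E) ∈ UD := by
  refine ⟨?_, ?_, ?_⟩
  · simp
  · simp only [Complex.norm_exp_ofReal_mul_I]
    norm_num
  · simp

theorem st_GEN (hfree : ST_FREE) : ST_GEN := by
  intro M N hNN t D
  classical
  have hQc : Countable (QN M N) := by
    have : Countable SL(2, ℤ) := by
      have : Countable (Matrix (Fin 2) (Fin 2) ℤ) := inferInstanceAs (Countable (Fin 2 → Fin 2 → ℤ))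
      exact Subtype.countable
    exact Function.Surjective.countable (hN M N).rangeRestrict_surjective
  have hCc : Countable (Cusp M N) := Quotient.countable
  have hZc : Countable (ZMod N) := by
    have h0 : N ≠ 0 := by
      have := hNN.2
      omega
    have : NeZero N := ⟨h0⟩
    infer_instance
  -- the bad sets
  let B1 : QN M N → Set (Fin (D.n + 1) → ℂ) := fun q =>
    {a | ∃ τ ∈ {τ : ℂ | 0 < τ.im}, a ∈ {a | gen_lin a (D.fH q (τ, 0)).rep = 0 ∧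
      gen_lin a (D.fH q (τ, 1 / 2)).rep = 0}}
  let B2 : Cusp M N × ZMod N → Set (Fin (D.n + 1) → ℂ) := fun ck =>
    {a | ∃ θ ∈ (Set.univ : Set ℝ), a ∈ {a | gen_lin a (D.fD ck ((fun X : ℂ => ((X, 0) : E))
      ((fun θ : ℝ => exp (θ * I)) θ))).rep = 0}}
  let B3 : Cusp M N × ZMod N → Set (Fin (D.n + 1) → ℂ) := fun ck =>
    {a | ∃ θ ∈ (Set.univ : Set ℝ), a ∈ {a | gen_lin a (D.fD ck ((fun X : ℂ => ((0, X) : E))
      ((fun θ : ℝ => exp (θ * I)) θ))).rep = 0}}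
  let B4 : Cusp M N × ZMod N → Set (Fin (D.n + 1) → ℂ) := fun ck =>
    {a | ∃ θ ∈ (Set.univ : Set ℝ), a ∈ {a | gen_lin a (D.fD ck ((fun X : ℂ => ((X, 0) : E))
      ((fun _ : ℝ => (0 : ℂ)) θ))).rep = 0}}
  have hexp : ContDiff ℝ 1 (fun θ : ℝ => exp (θ * I)) := by
    apply ContDiff.cexp
    exact (Complex.ofRealCLM.contDiff).mul contDiff_const
  have hd1 : Differentiable ℂ (fun X : ℂ => ((X, 0) : E)) :=
    differentiable_id.prodMk (differentiable_const _)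
  have hd2 : Differentiable ℂ (fun X : ℂ => ((0, X) : E)) :=
    (differentiable_const _).prodMk differentiable_id
  have h1 : ∀ q, dimH (B1 q) ≤ ((finrank ℝ (Fin (D.n + 1) → ℂ) - 1 : ℕ) : ℝ≥0∞) := by
    intro q
    refine gen_two (D.fH q) _ (D.liftH q) 0 (1 / 2) _ ?_
    intro τ hτ
    refine ⟨hτ, hτ, ?_⟩
    intro heq
    exact gen_notGR hfree M N hNN t q τ hτ ((D.iff q q (τ, 0) (τ, 1 / 2) hτ hτ).1 heq)
  have h2 : ∀ ck, dimH (B2 ck) ≤ ((finrank ℝ (Fin (D.n + 1) → ℂ) - 1 : ℕ) : ℝ≥0∞) := fun ck =>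
    gen_curve (D.fD ck) _ (D.liftD ck) _ hd1 _ hexp gen_UD1
  have h3 : ∀ ck, dimH (B3 ck) ≤ ((finrank ℝ (Fin (D.n + 1) → ℂ) - 1 : ℕ) : ℝ≥0∞) := fun ck =>
    gen_curve (D.fD ck) _ (D.liftD ck) _ hd2 _ hexp gen_UD2
  have h4 : ∀ ck, dimH (B4 ck) ≤ ((finrank ℝ (Fin (D.n + 1) → ℂ) - 1 : ℕ) : ℝ≥0∞) := fun ck =>
    gen_curve (D.fD ck) _ (D.liftD ck) _ hd1 _ contDiff_const (fun _ => by simp [UD])
  have hbad : dimH ((⋃ q, B1 q) ∪ ((⋃ ck, B2 ck) ∪ ((⋃ ck, B3 ck) ∪ (⋃ ck, B4 ck)))) <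
      finrank ℝ (Fin (D.n + 1) → ℂ) := by
    refine lt_of_le_of_lt (b := ((finrank ℝ (Fin (D.n + 1) → ℂ) - 1 : ℕ) : ℝ≥0∞)) ?_ ?_
    · simp only [dimH_union, dimH_iUnion]
      exact max_le (iSup_le h1) (max_le (iSup_le h2) (max_le (iSup_le h3) (iSup_le h4)))
    · have := gen_fr (n := D.n)
      exact_mod_cast (by omega : finrank ℝ (Fin (D.n + 1) → ℂ) - 1 < finrank ℝ (Fin (D.n + 1) → ℂ))
  obtain ⟨a, ha⟩ := (dense_compl_of_dimH_lt_finrank hbad).nonempty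
  simp only [Set.mem_compl_iff, Set.mem_union, Set.mem_iUnion, not_or, not_exists] at ha
  obtain ⟨ha1, ha2, ha3, ha4⟩ := ha
  refine ⟨gen_lin a, ?_, ?_⟩
  · intro q τ hτ
    by_contra hcon
    push Not at hcon
    exact ha1 q ⟨τ, hτ, hcon 0, hcon (1 / 2)⟩
  · intro c k p hp1 hp2 hp hor hz
    have hcirc : ∀ z : ℂ, ‖z‖ = 1 → ∃ θ : ℝ, exp (θ * I) = z := by
      intro z hz
      refine ⟨z.arg, ?_⟩
      have := Complex.norm_mul_exp_arg_mul_I z
      rw [hz] at this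
      simpa using this
    rcases hor with h | h | h
    · have h20 : p.2 = 0 := by
        rcases mul_eq_zero.1 hp with h0 | h0
        · rw [h0] at h
          simp at h
        · exact h0
      obtain ⟨θ, hθ⟩ := hcirc p.1 h
      refine ha2 (c, k) ⟨θ, trivial, ?_⟩
      have : ((fun X : ℂ => ((X, 0) : E)) ((fun θ : ℝ => exp (θ * I)) θ)) = p := by
        ext1
        · exact hθ
        · exact h20.symm
      rw [Set.mem_ofPred_eq, this]
      exact hz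
    · have h10 : p.1 = 0 := by
        rcases mul_eq_zero.1 hp with h0 | h0
        · exact h0
        · rw [h0] at h
          simp at h
      obtain ⟨θ, hθ⟩ := hcirc p.2 h
      refine ha3 (c, k) ⟨θ, trivial, ?_⟩
      have : ((fun X : ℂ => ((0, X) : E)) ((fun θ : ℝ => exp (θ * I)) θ)) = p := by
        ext1
        · exact h10.symm
        · exact hθ
      rw [Set.mem_ofPred_eq, this]
      exact hz
    · refine ha4 (c, k) ⟨0, trivial, ?_⟩
      have : ((fun X : ℂ => ((X, 0) : E)) ((fun _ : ℝ => (0 : ℂ)) 0)) = p := by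
        rw [h]
        rfl
      rw [Set.mem_ofPred_eq, this]
      exact hz

end RicP
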